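import Pool.Agent.Q10.JT.Main2

/-!
# Algebraic multiplicities
-/

open CategoryTheory AlgebraicGeometry

universe u w

set_option linter.unusedSectionVars false

namespace Pool.Agent.Q10.JI

open Module
open Pool.Agent.H914 Pool.Agent.H914.VarClass Pool.Agent.H914.VarClass.Obj
  Pool.Agent.H914.WeilCohomology
open Pool.Agent.Y133.Half (pw prj)
open Pool.Agent.Q55 (GaloisAction SubAction Virtually)
open Pool.Agent.Q50.MTC (IsTate IsLadic)
open Pool.Agent.Q50.LI (dimSpan tateDim)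
open Pool.Agent.Q60.TD (SemisimpleAt SSon Op)
open Pool.Agent.Q10.JT

section lin

variable {K V : Type*} [Field K] [AddCommGroup V] [Module K V] [FiniteDimensional K V]

/-- The alternating sums vanish if the characteristic polynomial is divisible by
`(X - 1) ^ r`. -/
theorem altTr_zero {f : V →ₗ[K] V} {r : ℕ} (h : r ≤ f.charpoly.rootMultiplicity 1) {i : ℕ}
    (hi : i < r) : altTr i f = 0 := by
  classical
  let b := finBasis K V
  let M := LinearMap.toMatrix b b f
  have h1 : (Polynomial.X - Polynomial.C 1) ^ r ∣ M.charpoly := by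
    rw [LinearMap.charpoly_toMatrix]
    exact (Polynomial.le_rootMultiplicity_iff (LinearMap.charpoly_monic f).ne_zero).1 h
  have h2 := (dvd_iff (rev_natDegree M) r).1 (rev_dvd h1) i hi
  rw [Fintype.card_fin] at h2
  rw [altTr, ← h2]
  refine Finset.sum_congr rfl fun n _ => ?_
  rw [rev_coeff, trace_ext b]

/-- The multiplicity of an eigenvalue of a multiple of an operator. -/
theorem mult_smul (f : V →ₗ[K] V) {c : K} (hc : c ≠ 0) :
    (c⁻¹ • f).charpoly.rootMultiplicity 1 = f.charpoly.rootMultiplicity c := by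
  rw [← LinearMap.finrank_maxGenEigenspace_eq, ← LinearMap.finrank_maxGenEigenspace_eq]
  have h1 : End.maxGenEigenspace (c⁻¹ • f) 1 = End.maxGenEigenspace f c := by
    ext x
    rw [End.mem_maxGenEigenspace, End.mem_maxGenEigenspace]
    have h2 : (c⁻¹ • f - (1 : K) • (1 : Module.End K V)) = c⁻¹ • (f - c • (1 : Module.End K V)) := by
      rw [smul_sub, smul_smul, inv_mul_cancel₀ hc]
    refine exists_congr fun n => ?_
    rw [h2, smul_pow, LinearMap.smul_apply]
    constructor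
    · intro h
      exact (smul_eq_zero.1 h).resolve_left (pow_ne_zero _ (inv_ne_zero hc))
    · intro h
      rw [h, smul_zero]
  rw [h1]

end lin

variable {k : Type u} [Field k] {𝒱 : VarClass k} {ops : CycleOps 𝒱}
  {E : WeilCohomology.{u, 0} ops} {Γ : Type w} [Group Γ]
  {G : GaloisAction E Γ} {X : 𝒱.Obj}

/-- **Passing to the closure.** -/
theorem closure_gen [TopologicalSpace Γ] {ℓ : ℕ} [Fact ℓ.Prime] {e : E.K ≃+* ℚ_[ℓ]}
    (hX : IsLadic (G.ρ X) G.χ e) {j i : ℕ} {S : Set Γ}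
    (hS : ∀ γ ∈ S, ∃ hd : γ ∈ (G.ρ X).dom,
      altTr i (repV G X j (G.ρ X).dom le_rfl ⟨γ, hd⟩) = 0) {γ : Γ} (hγ : γ ∈ closure S)
    (hd : γ ∈ (G.ρ X).dom) :
    altTr i (repV G X j (G.ρ X).dom le_rfl ⟨γ, hd⟩) = 0 := by
  classical
  have tg := hX.topGroup
  let D := (G.ρ X).dom
  let V := E.gr X (2 * j)
  let b := finBasis E.K V
  let F : D → ℚ_[ℓ] := fun γ => e (altTr i (repV G X j D le_rfl γ))
  have hF : Continuous F := by
    have h1 : F = fun γ => ∑ n ∈ Finset.range (finrank E.K V + 1), (n.choose i : ℚ_[ℓ]) *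
      ((-1) ^ n * ∑ s ∈ Finset.univ.powersetCard n,
        (((LinearMap.toMatrix b b (repV G X j D le_rfl γ)).map e).submatrix
          (Subtype.val : s → Fin (finrank E.K V)) (Subtype.val : s → Fin (finrank E.K V))).det) :=
      funext fun γ => map_altTr (e : E.K →+* ℚ_[ℓ]) i _
    rw [h1]
    have hM : Continuous fun γ : D => (LinearMap.toMatrix b b (repV G X j D le_rfl γ)).map e := by
      refine continuous_matrix fun a c => ?_
      obtain ⟨f, hf⟩ := (b.coord a).exists_extend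
      have h2 : ∀ γ : D, (LinearMap.toMatrix b b (repV G X j D le_rfl γ)).map e a c =
          (e (G.χ γ) ^ j)⁻¹ * e (f ((G.ρ X).act γ (b c))) := by
        intro γ
        rw [Matrix.map_apply, LinearMap.toMatrix_apply, ← Basis.coord_apply, ← hf,
          LinearMap.comp_apply, Submodule.subtype_apply, repV_coe, map_smul, smul_eq_mul, map_mul,
          map_inv₀, map_pow]
      have h3 : (fun γ : D => (LinearMap.toMatrix b b (repV G X j D le_rfl γ)).map e a c) =
          fun γ : D => (e (G.χ γ) ^ j)⁻¹ * e (f ((G.ρ X).act γ (b c))) := funext h2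
      rw [h3]
      refine Continuous.mul ?_ (hX.cont _ f)
      refine Continuous.inv₀ (hX.cont'.pow j) fun γ => pow_ne_zero _ ?_
      rw [Ne, map_eq_zero]
      exact Units.ne_zero _
    refine continuous_finsetSum _ fun n _ => ?_
    have h5 : Continuous fun γ : D => ∑ s ∈ Finset.univ.powersetCard n,
        (((LinearMap.toMatrix b b (repV G X j D le_rfl γ)).map e).submatrix
          (Subtype.val : s → Fin (finrank E.K V)) (Subtype.val : s → Fin (finrank E.K V))).det :=
      continuous_finsetSum _ fun s _ => (hM.matrix_submatrix _ _).matrix_det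
    have h6 := (continuous_const (y := (n.choose i : ℚ_[ℓ]))).mul
      ((continuous_const (y := (-1 : ℚ_[ℓ]) ^ n)).mul h5)
    exact h6
  have hZ : IsClosed ((Subtype.val : D → Γ) '' {γ | F γ = 0}) := by
    have h1 : IsClosed (D : Set Γ) := D.isClosed_of_isOpen hX.isOpen
    exact h1.isClosedEmbedding_subtypeVal.isClosedMap _ (isClosed_eq hF continuous_const)
  have hsub : S ⊆ (Subtype.val : D → Γ) '' {γ | F γ = 0} := by
    intro γ hγ
    obtain ⟨hγd, h0⟩ := hS γ hγ
    refine ⟨⟨γ, hγd⟩, ?_, rfl⟩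
    change e (altTr i (repV G X j D le_rfl ⟨γ, hγd⟩)) = 0
    rw [h0, map_zero]
  obtain ⟨γ', h1, h2⟩ := closure_minimal hsub hZ hγ
  have h3 : γ' = ⟨γ, hd⟩ := Subtype.ext h2
  rw [h3] at h1
  exact (map_eq_zero e).1 h1

/-- **The alternating sums**, from the vanishing of the traces on a subgroup of finite index. -/
theorem sum_zero_of {j i : ℕ} (hss : SemisimplePowers G X j)
    (hv : Virtually fun γ => ∀ hd : γ ∈ (G.ρ X).dom,
      altTr i (repV G X j (G.ρ X).dom le_rfl ⟨γ, hd⟩) = 0) :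
    ∑ n ∈ Finset.range (JT.betti E X j + 1), (n.choose i : ℤ) *
      ((-1) ^ n * (altDim G X j n : ℤ)) = 0 := by
  classical
  have hb := betti_eq (E := E) X j
  obtain ⟨Δ₀, hΔ₀, h0⟩ := hv
  choose D1 hD1 h1 using fun n => exists_good G X n
  choose D2 hD2 h2 using fun n => exists_common G X j n
  have hd := (G.isGalois X).finiteIndex
  have hf1 : (⨅ n : Fin (JT.betti E X j), D1 n).FiniteIndex := Subgroup.finiteIndex_iInf fun n => hD1 n
  have hf2 : (⨅ n : Fin (JT.betti E X j), D2 n).FiniteIndex := Subgroup.finiteIndex_iInf fun n => hD2 n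
  obtain ⟨Δ, hΔe⟩ : ∃ Δ : Subgroup Γ, Δ = (G.ρ X).dom ⊓ Δ₀ ⊓ (⨅ n : Fin (JT.betti E X j), D1 n) ⊓
    (⨅ n : Fin (JT.betti E X j), D2 n) := ⟨_, rfl⟩
  have hfi : Δ.FiniteIndex := by
    rw [hΔe]
    infer_instance
  have hΔ : Δ ≤ (G.ρ X).dom := fun g hg => by
    rw [hΔe] at hg
    exact hg.1.1.1
  have hΔ0 : ∀ g ∈ Δ, ∀ hd : g ∈ (G.ρ X).dom,
      altTr i (repV G X j (G.ρ X).dom le_rfl ⟨g, hd⟩) = 0 := fun g hg => by
    rw [hΔe] at hg
    exact h0 g hg.1.1.2
  have hgood : ∀ n < JT.betti E X j, ∀ g ∈ Δ, Good G X n g := fun n hn g hg => by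
    rw [hΔe] at hg
    exact h1 n g (Subgroup.mem_iInf.1 hg.1.2 ⟨n, hn⟩)
  have htate : ∀ n < JT.betti E X j, ∀ g ∈ Δ, ∀ c, IsAltTate G X j n c →
      (G.ρ (pw X n)).Twists G.χ (j * (n + 1)) c g := fun n hn g hg => by
    rw [hΔe] at hg
    exact h2 n g (Subgroup.mem_iInf.1 hg.2 ⟨n, hn⟩)
  let ρ : ∀ n : Fin (JT.betti E X j + 1), Δ →* Module.End E.K (⋀[E.K]^(n : ℕ) (E.gr X (2 * j))) :=
    fun n => repL (repV G X j Δ hΔ) n
  have hs : ∀ n, SSon (Op (ρ n) ⊤) ⊤ := by
    rintro ⟨n, hn⟩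
    rcases n with _ | n
    · exact ss_zero _
    · exact ss_ext (hss n (by omega)) hfi hΔ (hgood n (by omega))
  have hinv : ∀ n, finrank E.K (inv (ρ n)) = altDim G X j n := by
    rintro ⟨n, hn⟩
    rcases n with _ | n
    · exact inv_zero' _
    · exact finrank_inv hfi hΔ (hgood n (by omega)) (htate n (by omega))
  have hav := avg ρ hs (fun n => (((n : ℕ).choose i : ℕ) : E.K) * (-1) ^ (n : ℕ)) (by
    intro g
    have h3 := hΔ0 g g.2 (hΔ g.2)
    rw [altTr, ← hb, Finset.sum_range] at h3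
    rw [← h3]
    refine Finset.sum_congr rfl fun n _ => ?_
    rw [mul_assoc]
    rfl)
  simp only [hinv] at hav
  have hcast : ((∑ n ∈ Finset.range (JT.betti E X j + 1), (n.choose i : ℤ) *
      ((-1) ^ n * (altDim G X j n : ℤ)) : ℤ) : E.K) = 0 := by
    rw [← hav, Finset.sum_range]
    push_cast
    refine Finset.sum_congr rfl fun n _ => ?_
    ring
  exact_mod_cast hcast

/-- **Divisibility.** -/
theorem dvd_of {j r : ℕ} (hss : SemisimplePowers G X j)
    (hv : Virtually fun γ => ∀ hd : γ ∈ (G.ρ X).dom, ∀ i < r,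
      altTr i (repV G X j (G.ρ X).dom le_rfl ⟨γ, hd⟩) = 0) :
    (1 - Polynomial.X) ^ r ∣ altPoly G X j := by
  let _ : TopologicalSpace Γ := ⊥
  rw [dvd_iff (altPoly_natDegree G X j)]
  intro i hi
  obtain ⟨Δ, hΔ, h⟩ := hv
  rw [← sum_zero_of (G := G) (X := X) (j := j) (i := i) hss
    ⟨Δ, hΔ, fun g hg hd => h g hg hd i hi⟩]
  refine Finset.sum_congr rfl fun n hn => ?_
  rw [Finset.mem_range] at hn
  rw [altPoly_coeff G X j n (by omega)]

end Pool.Agent.Q10.JI
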