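import Pool.Agent.Q10.JI.Exo

/-!
# The rank of the group of cycles at several primes
-/

open CategoryTheory AlgebraicGeometry

universe u w

set_option linter.unusedSectionVars false

namespace Pool.Agent.Q10.JI

open Module
open Pool.Agent.H914 Pool.Agent.H914.VarClass Pool.Agent.H914.VarClass.Obj
  Pool.Agent.H914.WeilCohomology
open Pool.Agent.Y133.Half (pw prj)
open Pool.Agent.Q55 (GaloisAction SubAction Virtually)
open Pool.Agent.Q50.MTC (IsTate IsLadic IsAlg IsComb)
open Pool.Agent.Q50.LI (dimSpan tateDim Artin ExtRing)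
open Pool.Agent.Q10.JT

section abs

variable {K A L A' : Type} [Field K] [Ring A] [Algebra K A] [Field L] [Ring A'] [Algebra L A']
  [Algebra K L] [Module.Finite K A] {gr : ℕ → Submodule K A} {gr' : ℕ → Submodule L A'}
  {tr : A →ₗ[K] K} {tr' : A' →ₗ[L] L} {d : ℕ} {c : L} {a : A →+* A'}

/-- Linearly independent elements remain linearly independent. -/
theorem ExtRing.li (h : ExtRing gr gr' tr tr' d c a) (hc : c ≠ 0)
    (hnd : ∀ x, (∀ y, tr (x * y) = 0) → x = 0) {ι : Type*} [Finite ι] {x : ι → A}
    (hx : LinearIndependent K x) : LinearIndependent L fun i => a (x i) := by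
  classical
  have : Fintype ι := Fintype.ofFinite ι
  -- the dual elements
  let Φ : A →ₗ[K] (A →ₗ[K] K) := (LinearMap.mul K A).compr₂ tr
  have hΦ : ∀ y z, Φ y z = tr (y * z) := fun _ _ => rfl
  have hinj : Function.Injective Φ := by
    rw [injective_iff_map_eq_zero]
    intro y hy
    apply hnd
    intro z
    rw [← hΦ, hy]
    rfl
  have hsurj : Function.Surjective Φ :=
    (LinearMap.injective_iff_surjective_of_finrank_eq_finrank
      (Subspace.dual_finrank_eq (K := K) (V := A)).symm).1 hinj
  have hdual : ∀ i, ∃ y, ∀ l, tr (y * x l) = if l = i then 1 else 0 := by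
    intro i
    obtain ⟨f, hf⟩ : ∃ f : A →ₗ[K] K, ∀ l, f (x l) = if l = i then 1 else 0 := by
      obtain ⟨f, hf⟩ := ((Basis.span hx).coord i).exists_extend
      refine ⟨f, fun l => ?_⟩
      have h1 := LinearMap.congr_fun hf (Basis.span hx l)
      have h2 : (Basis.span hx).coord i (Basis.span hx l) = if l = i then 1 else 0 := by
        rw [Basis.coord_apply, Basis.repr_self, Finsupp.single_apply]
      rw [h2, LinearMap.comp_apply, Submodule.subtype_apply, Basis.span_apply] at h1
      exact h1
    obtain ⟨y, hy⟩ := hsurj f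
    exact ⟨y, fun l => by rw [← hΦ, hy, hf]⟩
  rw [Fintype.linearIndependent_iff]
  intro g hg i
  obtain ⟨y, hy⟩ := hdual i
  have h1 : tr' (a y * ∑ l, g l • a (x l)) = 0 := by rw [hg, mul_zero, map_zero]
  rw [Finset.mul_sum, map_sum] at h1
  have h2 : ∀ l, tr' (a y * g l • a (x l)) = if l = i then g l * c ^ d else 0 := by
    intro l
    rw [mul_smul_comm, map_smul, ← map_mul, h.tr, hy, smul_eq_mul]
    split_ifs
    · rw [map_one, mul_one]
    · rw [map_zero, mul_zero, mul_zero]
  rw [Finset.sum_congr rfl fun l _ => h2 l, Finset.sum_ite_eq' Finset.univ i,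
    if_pos (Finset.mem_univ i)] at h1
  exact (mul_eq_zero.1 h1).resolve_right (pow_ne_zero _ hc)

end abs

variable {k : Type u} [Field k] {𝒱 : VarClass k} {ops : CycleOps 𝒱}
  {W E E' : WeilCohomology.{u, 0} ops}

/-- The space spanned by the classes of the cycles of codimension `j`. -/
def cyc (E : WeilCohomology.{u, 0} ops) (X : 𝒱.Obj) (j : ℕ) : Submodule E.K (E.H X) :=
  Submodule.span E.K {c | ∃ z, X.IsCyc j z ∧ E.cl X z = c}

lemma isAlg_iff {X : 𝒱.Obj} {j : ℕ} {c : E.H X} : IsAlg E X j c ↔ c ∈ cyc E X j := Iff.rfl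

/-- **The rank of the group of cycles.** -/
theorem finrank_cyc [Algebra W.K E.K] (A : Artin W E) (X : 𝒱.Obj) (j : ℕ) :
    finrank E.K (cyc E X j) = finrank W.K (cyc W X j) := by
  classical
  obtain ⟨B, hB, hs, hli⟩ := exists_linearIndependent W.K {c | ∃ z, X.IsCyc j z ∧ W.cl X z = c}
  have hfin : Finite B := hli.finite
  have : Fintype B := Fintype.ofFinite B
  have hli' := ExtRing.li (A.ext X) A.ne (fun x hx => W.nondeg x hx) hli
  have h1 : cyc W X j = Submodule.span W.K (Set.range ((↑) : B → W.H X)) := by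
    rw [Subtype.range_coe, hs]
    rfl
  have hcl : ∀ z, X.IsCyc j z → A.a X (W.cl X z) = A.c ^ j • E.cl X z := fun z hz => A.cl X j z hz
  have h2 : cyc E X j = Submodule.span E.K (Set.range fun b : B => A.a X b) := by
    apply le_antisymm
    · rw [cyc, Submodule.span_le]
      rintro _ ⟨z, hz, rfl⟩
      have h3 : W.cl X z ∈ Submodule.span W.K B := by
        rw [hs]
        exact Submodule.subset_span ⟨z, hz, rfl⟩
      have h4 : ∀ x ∈ Submodule.span W.K B, A.a X x ∈
          Submodule.span E.K (Set.range fun b : B => A.a X b) := by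
        intro x hx
        induction hx using Submodule.span_induction with
        | mem x hx => exact Submodule.subset_span ⟨⟨x, hx⟩, rfl⟩
        | zero => rw [map_zero]; exact Submodule.zero_mem _
        | add x y _ _ hx hy => rw [map_add]; exact Submodule.add_mem _ hx hy
        | smul r x _ hx =>
          rw [(A.ext X).smul]
          exact Submodule.smul_mem _ _ hx
      have h5 := h4 _ h3
      rw [hcl z hz] at h5
      have h6 := Submodule.smul_mem _ (A.c ^ j)⁻¹ h5
      rw [smul_smul, inv_mul_cancel₀ (pow_ne_zero _ A.ne), one_smul] at h6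
      exact h6
    · rw [Submodule.span_le]
      rintro _ ⟨b, rfl⟩
      obtain ⟨z, hz, hzb⟩ := hB b.2
      change A.a X b ∈ _
      rw [← hzb, hcl z hz]
      exact Submodule.smul_mem _ _ (Submodule.subset_span ⟨z, hz, rfl⟩)
  rw [h1, h2, finrank_span_eq_card hli', finrank_span_eq_card hli]

variable {Γ : Type w} [Group Γ] {G : GaloisAction E Γ} {G' : GaloisAction E' Γ} {X : 𝒱.Obj}

lemma cyc_le (G : GaloisAction E Γ) (X : 𝒱.Obj) (j : ℕ) :
    cyc E X j ≤ Submodule.span E.K {c | IsTate G X j c} := by
  apply Submodule.span_mono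
  rintro _ ⟨z, hz, rfl⟩
  exact ⟨E.cl_mem hz, G.cl_act X j z hz⟩

lemma finrank_of_tateIn {j : ℕ} (h : TateIn G X j) : tateDim G X j = finrank E.K (cyc E X j) := by
  have h1 : Submodule.span E.K {c | IsTate G X j c} = cyc E X j := by
    apply le_antisymm _ (cyc_le G X j)
    rw [Submodule.span_le]
    exact fun c hc => h c hc
  change finrank E.K (Submodule.span E.K {c | IsTate G X j c}) = _
  rw [h1]

lemma tateIn_of_finrank {j : ℕ} (h : tateDim G X j ≤ finrank E.K (cyc E X j)) : TateIn G X j := by
  intro c hc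
  have h1 := Submodule.eq_of_le_of_finrank_le (cyc_le G X j) h
  rw [isAlg_iff, h1]
  exact Submodule.subset_span hc

/-- **From one prime to another.** -/
theorem transfer [Algebra W.K E.K] [Algebra W.K E'.K] (A : Artin W E) (A' : Artin W E') {j : ℕ}
    (hdvd : (1 - Polynomial.X) ^ (tateDim G' X j) ∣ altPoly G X j)
    (hn : ¬ (1 - Polynomial.X) ^ (tateDim G X j + 1) ∣ altPoly G X j) (h : TateIn G X j) :
    TateIn G' X j := by
  apply tateIn_of_finrank
  rw [finrank_cyc A', ← finrank_cyc A, ← finrank_of_tateIn h]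
  by_contra hlt
  exact hn ((pow_dvd_pow _ (by omega)).trans hdvd)

end Pool.Agent.Q10.JI
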