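import Pool.Agent.Q10.JT.Defs

/-!
# The Tate conjecture for several primes: definitions
-/

open CategoryTheory AlgebraicGeometry Polynomial

universe u w

namespace Pool.Agent.Q10.JI

open Pool.Agent.H914 Pool.Agent.H914.VarClass Pool.Agent.H914.VarClass.Obj
  Pool.Agent.H914.WeilCohomology
open Pool.Agent.Q55 (GaloisAction SubAction Virtually)
open Pool.Agent.Q50.MTC (IsTate IsAlg)

section Alg

variable {Γ : Type w} [Group Γ] {K A : Type} [Field K] [Ring A] [Algebra K A] [Module.Finite K A]

/-- The subspace `gr` is stable under `γ`, and the characteristic polynomial of `γ` on it is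
`p`. -/
def HasCharpoly (ρ : SubAction Γ K A) (gr : Submodule K A) (γ : Γ) (p : K[X]) : Prop :=
  ∃ h : ∀ x ∈ gr, (ρ.act γ).toLinearMap x ∈ gr, ((ρ.act γ).toLinearMap.restrict h).charpoly = p

/-- The element `γ` acts, the characteristic polynomial of `γ` on `gr` is the rational polynomial
`p`, and `χ γ` is the rational number `q`. -/
def RationalOn [CharZero K] (ρ : SubAction Γ K A) (χ : Γ →* Kˣ) (gr : Submodule K A) (γ : Γ)
    (p : ℚ[X]) (q : ℚ) : Prop :=
  γ ∈ ρ.dom ∧ HasCharpoly ρ gr γ (p.map (algebraMap ℚ K)) ∧ (χ γ : K) = q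

end Alg

variable {k : Type u} [Field k] {𝒱 : VarClass k} {ops : CycleOps 𝒱}
  {E E' : WeilCohomology.{u, 0} ops} {Γ : Type w} [Group Γ]

/-- The characteristic polynomial of `γ` on `H^(2 j)(X)` is rational and the same for the two
cohomology theories, and so is the number `χ γ`. By Deligne's theorem this holds for the Frobenius
elements at the places of good reduction with residue characteristic different from the two
primes. -/
def Compatible (G : GaloisAction E Γ) (G' : GaloisAction E' Γ) (X : 𝒱.Obj) (j : ℕ) (γ : Γ) :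
    Prop :=
  ∃ (p : ℚ[X]) (q : ℚ), RationalOn (G.ρ X) G.χ (E.gr X (2 * j)) γ p q ∧
    RationalOn (G'.ρ X) G'.χ (E'.gr X (2 * j)) γ p q

/-- The elements `γ` with the property `Compatible` are dense in the subgroup which acts. By
Chebotarev's theorem the Frobenius elements are dense. -/
def CompatibleSystem [TopologicalSpace Γ] (G : GaloisAction E Γ) (G' : GaloisAction E' Γ)
    (X : 𝒱.Obj) (j : ℕ) : Prop :=
  ∀ γ, γ ∈ (G.ρ X).dom → γ ∈ (G'.ρ X).dom → γ ∈ closure {γ | Compatible G G' X j γ}

/-- The Tate conjecture for `X` in codimension `j`: all Tate classes are linear combinations of the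
classes of algebraic cycles. -/
def TateIn (G : GaloisAction E Γ) (X : 𝒱.Obj) (j : ℕ) : Prop :=
  ∀ c, IsTate G X j c → IsAlg E X j c

end Pool.Agent.Q10.JI
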