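import Pool.Agent.Q10.JI.Ind

/-!
# Exotic classes from divisibility
-/

open CategoryTheory AlgebraicGeometry

universe u w

set_option linter.unusedSectionVars false

namespace Pool.Agent.Q10.JI

open Module
open Pool.Agent.H914 Pool.Agent.H914.VarClass Pool.Agent.H914.VarClass.Obj
  Pool.Agent.H914.WeilCohomology
open Pool.Agent.Y133.Half (pw prj)
open Pool.Agent.Q55 (GaloisAction SubAction Virtually)
open Pool.Agent.Q50.MTC (IsTate IsLadic IsAlg)
open Pool.Agent.Q50.LI (dimSpan tateDim)
open Pool.Agent.Q10.JT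

variable {k : Type u} [Field k] {𝒱 : VarClass k} {ops : CycleOps 𝒱}
  {E E' : WeilCohomology.{u, 0} ops} {Γ : Type w} [Group Γ]
  {G : GaloisAction E Γ} {G' : GaloisAction E' Γ} {X : 𝒱.Obj}

/-- **Exotic alternating Tate classes from divisibility.** -/
theorem exotic_of_dvd {j r : ℕ} (hdvd : (1 - Polynomial.X) ^ r ∣ altPoly G X j)
    (ha : tateDim G X j < r) :
    ∃ n, Even n ∧ 2 ≤ n ∧ n < JT.betti E X j ∧ ∃ c, IsAltTate G X j n c ∧
      c ∉ altSpan E X n (IsTate G X j) := by
  classical
  let _ : TopologicalSpace Γ := ⊥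
  by_contra hcon
  push Not at hcon
  let T := Submodule.span E.K {c | IsTate G X j c}
  have hTa : finrank E.K T = tateDim G X j := rfl
  obtain ⟨a, haa⟩ : ∃ a, a = tateDim G X j := ⟨_, rfl⟩
  rw [← haa] at ha hTa
  have hle : ∀ n, altSpan E X n (IsTate G X j) ≤ altSpan E X n (fun x => x ∈ T) := by
    intro n
    apply Submodule.span_mono
    rintro c ⟨v, hv, rfl⟩
    exact ⟨v, fun l => Submodule.subset_span (hv l), rfl⟩
  have hbd : ∀ n, (∀ c, IsAltTate G X j n c → c ∈ altSpan E X n (IsTate G X j)) →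
      altDim G X j (n + 1) ≤ a.choose (n + 1) := by
    intro n h
    have h1 := finrank_altSpan (E := E) T n
    rw [hTa] at h1
    refine le_trans ?_ h1
    rw [altDim, dimSpan]
    apply Submodule.finrank_mono
    rw [Submodule.span_le]
    exact fun c hc => hle n (h c hc)
  have hodd : ∀ n, n ≤ JT.betti E X j → Odd n → altDim G X j n ≤ a.choose n := by
    intro n hn ho
    obtain ⟨m, rfl⟩ := ho
    rcases Nat.eq_zero_or_pos m with rfl | hm
    · apply hbd 0
      intro c hc
      apply Submodule.subset_span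
      refine ⟨fun _ => c, fun _ => ?_, (altProd_zero E X c).symm⟩
      have h1 := hc.2
      rw [zero_add, mul_one] at h1
      exact h1
    · exact hbd (2 * m) (hcon (2 * m) (even_two_mul m) (by omega) (by omega))
  have haN : a ≤ JT.betti E X j := by
    rw [← hTa, JT.betti_eq]
    apply Submodule.finrank_mono
    rw [Submodule.span_le]
    exact fun c hc => hc.1
  -- the sum of the dimensions
  let N := JT.betti E X j
  have hcoef : ∀ n ∈ Finset.range (N + 1),
      (altPoly G X j).coeff n = (-1) ^ n * (altDim G X j n : ℤ) := by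
    intro n hn
    rw [Finset.mem_range] at hn
    have hn' : n ≤ JT.betti E X j := Nat.lt_succ_iff.1 hn
    exact altPoly_coeff G X j n hn'
  have hA : ∑ n ∈ Finset.range (N + 1), ((-1) ^ n * (altDim G X j n : ℤ)) = 0 := by
    have h1 := (dvd_iff (altPoly_natDegree G X j) r).1 hdvd 0 (by omega)
    rw [← h1]
    refine Finset.sum_congr rfl fun n hn => ?_
    rw [hcoef n hn, Nat.choose_zero_right, Nat.cast_one, one_mul]
  have hS : (2 : ℤ) ^ r ≤ ∑ n ∈ Finset.range (N + 1), (altDim G X j n : ℤ) := by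
    obtain ⟨Q, hQ⟩ := hdvd
    have h1 := congrArg (Polynomial.eval (-1)) hQ
    have h2 : (altPoly G X j).eval (-1) = ∑ n ∈ Finset.range (N + 1), (altDim G X j n : ℤ) := by
      rw [altPoly, Polynomial.eval_finsetSum]
      refine Finset.sum_congr rfl fun n _ => ?_
      rw [Polynomial.eval_mul, Polynomial.eval_C, Polynomial.eval_pow, Polynomial.eval_neg,
        Polynomial.eval_X, neg_neg, one_pow, mul_one]
    rw [h2, Polynomial.eval_mul, Polynomial.eval_pow, Polynomial.eval_sub, Polynomial.eval_one,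
      Polynomial.eval_X] at h1
    have h3 : (1 - -1 : ℤ) = 2 := by norm_num
    rw [h3] at h1
    have h4 : (0 : ℤ) < ∑ n ∈ Finset.range (N + 1), (altDim G X j n : ℤ) := by
      refine Finset.sum_pos' (fun n _ => Int.natCast_nonneg _) ⟨0, by simp, ?_⟩
      rw [altDim]
      norm_num
    rw [h1] at h4 ⊢
    have h5 : 0 < Q.eval (-1) := by
      by_contra h6
      have h7 : (2 : ℤ) ^ r * Q.eval (-1) ≤ 0 :=
        mul_nonpos_of_nonneg_of_nonpos (by positivity) (not_lt.1 h6)
      omega
    nlinarith [show (0 : ℤ) < 2 ^ r by positivity]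
  have hC1 : ∑ n ∈ Finset.range (N + 1), (a.choose n : ℤ) = 2 ^ a := by
    rw [← Finset.sum_subset (Finset.range_mono (Nat.succ_le_succ haN))]
    · have h1 := Nat.sum_range_choose a
      exact_mod_cast h1
    · intro n _ hn
      rw [Finset.mem_range] at hn
      rw [Nat.choose_eq_zero_of_lt (by omega), Nat.cast_zero]
  have hC2 : 0 ≤ ∑ n ∈ Finset.range (N + 1), ((-1) ^ n * (a.choose n : ℤ)) := by
    rw [← Finset.sum_subset (Finset.range_mono (Nat.succ_le_succ haN))]
    · have h1 := Int.alternating_sum_range_choose (n := a)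
      rw [h1]
      split_ifs <;> norm_num
    · intro n _ hn
      rw [Finset.mem_range] at hn
      rw [Nat.choose_eq_zero_of_lt (by omega), Nat.cast_zero, mul_zero]
  have hcmp : ∑ n ∈ Finset.range (N + 1), ((1 - (-1) ^ n) * (altDim G X j n : ℤ)) ≤
      ∑ n ∈ Finset.range (N + 1), ((1 - (-1) ^ n) * (a.choose n : ℤ)) := by
    refine Finset.sum_le_sum fun n hn => ?_
    rw [Finset.mem_range] at hn
    rcases Nat.even_or_odd n with h | h
    · rw [h.neg_one_pow, sub_self, zero_mul, zero_mul]
    · rw [h.neg_one_pow]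
      have h1 := hodd n (Nat.lt_succ_iff.1 hn) h
      have h2 : (altDim G X j n : ℤ) ≤ (a.choose n : ℤ) := by exact_mod_cast h1
      linarith
  simp only [sub_mul, one_mul, Finset.sum_sub_distrib] at hcmp
  rw [hA, hC1] at hcmp
  have h9 : (2 : ℤ) ^ a < 2 ^ r := pow_lt_pow_right₀ (by norm_num) ha
  linarith

theorem not_dvd_of_noExotic {j : ℕ} (h : NoOddExotic G X j) :
    ¬ (1 - Polynomial.X) ^ (tateDim G X j + 1) ∣ altPoly G X j := by
  intro hd
  obtain ⟨n, h1, h2, h3, c, hc, hc'⟩ := exotic_of_dvd hd (Nat.lt_succ_self _)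
  exact hc' (h n h1 h2 h3 c hc)

end Pool.Agent.Q10.JI
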