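import Pool.Agent.Q10.JI.Alg
import Pool.Agent.Q10.JI.Defs

/-!
# The number of Tate classes at another prime
-/

open CategoryTheory AlgebraicGeometry

universe u w

set_option linter.unusedSectionVars false

namespace Pool.Agent.Q10.JI

open Module
open Pool.Agent.H914 Pool.Agent.H914.VarClass Pool.Agent.H914.VarClass.Obj
  Pool.Agent.H914.WeilCohomology
open Pool.Agent.Y133.Half (pw prj)
open Pool.Agent.Q55 (GaloisAction SubAction Virtually)
open Pool.Agent.Q50.MTC (IsTate IsLadic IsAlg)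
open Pool.Agent.Q50.LI (dimSpan tateDim)
open Pool.Agent.Q60.TD (SemisimpleAt SSon Op)
open Pool.Agent.Q10.JT

variable {k : Type u} [Field k] {𝒱 : VarClass k} {ops : CycleOps 𝒱}
  {E E' : WeilCohomology.{u, 0} ops} {Γ : Type w} [Group Γ]
  {G : GaloisAction E Γ} {G' : GaloisAction E' Γ} {X : 𝒱.Obj}

/-- The multiplicity of the eigenvalue one for the twisted action. -/
lemma mult_eq {j : ℕ} {γ : Γ} {p : Polynomial ℚ} {q : ℚ}
    (h : RationalOn (G.ρ X) G.χ (E.gr X (2 * j)) γ p q) :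
    (repV G X j (G.ρ X).dom le_rfl ⟨γ, h.1⟩).charpoly.rootMultiplicity 1 =
      p.rootMultiplicity (q ^ j) := by
  obtain ⟨hd, ⟨hst, hp⟩, hq⟩ := h
  have h1 : repV G X j (G.ρ X).dom le_rfl ⟨γ, hd⟩ = ((G.χ γ : E.K) ^ j)⁻¹ •
      ((G.ρ X).act γ).toLinearMap.restrict hst := rfl
  rw [h1, mult_smul _ (pow_ne_zero _ (Units.ne_zero _)), hp, hq,
    Polynomial.eq_rootMultiplicity_map (algebraMap ℚ E.K).injective]
  congr 1
  rw [map_pow]
  rfl

/-- The Tate classes are fixed vectors of the elements of a small subgroup. -/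
lemma tateDim_le {j : ℕ} {γ : Γ} (hd : γ ∈ (G.ρ X).dom)
    (h : ∀ c, IsTate G X j c → (G.ρ X).act γ c = (G.χ γ : E.K) ^ j • c) :
    tateDim G X j ≤
      (repV G X j (G.ρ X).dom le_rfl ⟨γ, hd⟩).charpoly.rootMultiplicity 1 := by
  refine le_trans ?_ (LinearMap.finrank_eigenspace_le _ (1 : E.K))
  let f := repV G X j (G.ρ X).dom le_rfl ⟨γ, hd⟩
  have h1 : Submodule.span E.K {c | IsTate G X j c} ≤
      (End.eigenspace f 1).map (E.gr X (2 * j)).subtype := by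
    rw [Submodule.span_le]
    intro c hc
    refine ⟨⟨c, hc.1⟩, ?_, rfl⟩
    change _ ∈ End.eigenspace f 1
    rw [End.mem_eigenspace_iff, one_smul]
    apply Subtype.ext
    rw [repV_coe]
    change ((G.χ γ : E.K) ^ j)⁻¹ • (G.ρ X).act γ c = c
    rw [h c hc, smul_smul, inv_mul_cancel₀ (pow_ne_zero _ (Units.ne_zero _)), one_smul]
  exact (Submodule.finrank_mono h1).trans (Submodule.finrank_map_le _ _)

variable [TopologicalSpace Γ] {ℓ : ℕ} [Fact ℓ.Prime] {e : E.K ≃+* ℚ_[ℓ]} {ℓ' : ℕ} [Fact ℓ'.Prime]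
  {e' : E'.K ≃+* ℚ_[ℓ']}

/-- **The number of Tate classes at another prime.** -/
theorem dvd_other (hX : IsLadic (G.ρ X) G.χ e) (hX' : IsLadic (G'.ρ X) G'.χ e') {j : ℕ}
    (hss : SemisimplePowers G X j) (hc : CompatibleSystem G G' X j) :
    (1 - Polynomial.X) ^ (tateDim G' X j) ∣ altPoly G X j := by
  have tg := hX.topGroup
  apply dvd_of hss
  obtain ⟨Δ₁, hΔ₁, h1⟩ := exists_common_tate G' X j
  have hd := (G.isGalois X).finiteIndex
  have hd' := (G'.isGalois X).finiteIndex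
  obtain ⟨Δ₂, hΔ₂⟩ : ∃ Δ₂ : Subgroup Γ, Δ₂ = (G'.ρ X).dom ⊓ Δ₁ := ⟨_, rfl⟩
  have hf2 : Δ₂.FiniteIndex := by
    rw [hΔ₂]
    infer_instance
  have hle1 : Δ₂ ≤ (G'.ρ X).dom := fun g hg => by
    rw [hΔ₂] at hg
    exact hg.1
  have hle2 : Δ₂ ≤ Δ₁ := fun g hg => by
    rw [hΔ₂] at hg
    exact hg.2
  have hcl : (Δ₂.topologicalClosure).FiniteIndex :=
    Subgroup.finiteIndex_of_le Δ₂.le_topologicalClosure
  have hop : IsOpen (Δ₂.topologicalClosure : Set Γ) :=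
    Subgroup.isOpen_of_isClosed_of_finiteIndex _ Δ₂.isClosed_topologicalClosure
  have htw : ∀ g ∈ closure (Δ₂ : Set Γ), g ∈ (G'.ρ X).dom ∧
      ∀ c, IsTate G' X j c → (G'.ρ X).act g c = (G'.χ g : E'.K) ^ j • c := by
    intro g hg
    refine ⟨(twist_closure hX' (c := 0) hle1 (j := j)
      (fun g _ => by rw [map_zero, smul_zero]) hg).1, fun c hc => ?_⟩
    exact (twist_closure hX' hle1 (fun g' hg' => h1 g' (hle2 hg') c
      (Submodule.subset_span hc) (hle1 hg')) hg).2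
  refine ⟨(G.ρ X).dom ⊓ Δ₂.topologicalClosure, inferInstance, ?_⟩
  rintro g ⟨hg1, hg2⟩ hgd i hi
  have hg2' : g ∈ closure (Δ₂ : Set Γ) := hg2
  have h3 : g ∈ closure (Δ₂.topologicalClosure ∩ {γ | Compatible G G' X j γ}) :=
    hop.inter_closure ⟨hg2, hc g hg1 (htw g hg2').1⟩
  refine closure_gen hX ?_ h3 hgd
  rintro γ ⟨hγ, p, q, hp, hp'⟩
  have hγ' : γ ∈ closure (Δ₂ : Set Γ) := hγ
  refine ⟨hp.1, altTr_zero ?_ hi⟩
  rw [mult_eq hp, ← mult_eq hp']
  exact tateDim_le hp'.1 (htw γ hγ').2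

end Pool.Agent.Q10.JI
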